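import Pool.Agent.V8H44.RC.Main

/-!
# MP_3a8f7c_lc, Q2: a rational cone that is minimal with respect to bounded languages

`Transducer`, `image`, `Family`, `IsCone`, `gen`, `BoundedDeg` and `MinimalWrt` are the definitions
of the starting file `Pool.Agent.R679.Tr1` (used there for Q1): finite transducers, rational cones,
the smallest rational cone `gen L = T(L)` that contains `L`, bounded languages of degree `k`, and
minimality with respect to bounded languages of degree `k`.

The language `L` below is the explicit unary language of all words `a^n` such that
`n ≡ 0! + 1! + ⋯ + (j - 1)!` modulo `j!` for all `j` with `(j!)² ≤ n`. It is not regular, and the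
rational cone `T(L)` is minimal with respect to bounded languages of degree `k` for every `k`: every
bounded language in `T(L)` is regular or generates `T(L)`.

Proof. The exponent vectors of the words `w₁^e₁ ⋯ w_k^e_k` in an image of `L` are described by
finitely many tuples of linear sets of pairs with two generators. On a residue class of large
vectors the set of these vectors is everything (if some coordinate leaves the sum free, because the
gaps of the set of exponents are short), or it does not depend on some coordinate, or a line of the
lattice meets it in a finite union of preimages of the set of exponents under affine maps; in the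
last case the exponents, which converge in the profinite topology to the irrational number `∑ j!`,
can be recovered from the set. If this never happens, an induction on the number of the large
coordinates shows that the set of vectors is ultimately periodic in each coordinate, and that the
image is regular.
-/

set_option autoImplicit false

namespace Pool.Agent.Results.MP_3a8f7c_lc.MinimalCone

open Pool.Agent.R679.Tr Nat

/-- `a^n` is in the language if and only if `n ≡ 0! + 1! + ⋯ + (j - 1)!` modulo `j!` for all `j`
with `(j!)² ≤ n`. -/
def L : Language (Fin 1) :=
  {u | ∀ j : ℕ, (j !) ^ 2 ≤ u.length → u.length ≡ ∑ i ∈ Finset.range j, i ! [MOD j !]}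

/-- There is a rational cone `C` that contains a non-regular bounded language (even a unary one,
which generates it) and that is minimal with respect to bounded languages of degree `k` for
every `k`. -/
theorem result : ∃ C : Family, IsCone C ∧ C = gen L ∧ L ∈ C 1 ∧ BoundedDeg 1 L ∧ ¬ L.IsRegular ∧
    ∀ k : ℕ, MinimalWrt k C := by
  refine ⟨gen L, Pool.Agent.V8H44.RC.isCone_gen L, rfl, Pool.Agent.V8H44.RC.self_mem_gen L,
    Pool.Agent.V8H44.RC.bounded_LS Pool.Agent.V8H44.RC.Sx, Pool.Agent.V8H44.RC.not_regular,
    fun k => ?_⟩
  rcases Nat.eq_zero_or_pos k with rfl | hk
  · intro n K hK hb
    refine Pool.Agent.V8H44.RC.minimal (k := 1) le_rfl n K hK ?_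
    obtain ⟨w, hw⟩ := hb
    refine ⟨fun _ => [], fun u hu => ⟨fun _ => 0, ?_⟩⟩
    obtain ⟨e, rfl⟩ := hw u hu
    simp
  · exact Pool.Agent.V8H44.RC.minimal hk

end Pool.Agent.Results.MP_3a8f7c_lc.MinimalCone
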